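import Pool.Agent.Q283.EN.Stm2

/-!
# Project EN (helper283), job QAP: the condition `AQ` and the points
-/

set_option autoImplicit false

namespace Pool.Agent.Q53.EN

open NumberField IsDedekindDomain WeierstrassCurve
open Pool.Agent.Q283.EN
open Pool.Agent.TH841.SH.D (Pt)

section L

variable {F : Type} [Field F] {L : Type} [Field L] [Algebra F L]

theorem eq_eqn (D : F) (x y : L) :
    ((EQ D).baseChange L).toAffine.Equation x y ↔ y ^ 2 = x ^ 3 + algebraMap F L D * x := by
  rw [Affine.equation_iff]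
  show y ^ 2 + algebraMap F L 0 * x * y + algebraMap F L 0 * y =
    x ^ 3 + algebraMap F L 0 * x ^ 2 + algebraMap F L D * x + algebraMap F L 0 ↔ _
  rw [map_zero]
  constructor
  · intro h; linear_combination h
  · intro h; linear_combination h

theorem eq_nons [CharZero F] {D : F} (hD : D ≠ 0) {x y : L} (he : y ^ 2 = x ^ 3 + algebraMap F L D * x) :
    ((EQ D).baseChange L).toAffine.Nonsingular x y := by
  have : CharZero L := charZero_of_injective_algebraMap (algebraMap F L).injective
  have hD' : algebraMap F L D ≠ 0 := (map_ne_zero _).2 hD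
  rw [Affine.nonsingular_iff]
  refine ⟨(eq_eqn D x y).2 he, ?_⟩
  by_cases hy : y = 0
  · left
    show algebraMap F L 0 * y ≠ 3 * x ^ 2 + 2 * algebraMap F L 0 * x + algebraMap F L D
    rw [map_zero]
    intro h3
    subst hy
    have h4 : x * (x ^ 2 + algebraMap F L D) = 0 := by linear_combination -he
    rcases mul_eq_zero.1 h4 with h5 | h5
    · subst h5
      apply hD'
      linear_combination -h3
    · have h6 : (2 : L) * algebraMap F L D = 0 := by linear_combination 3 * h5 + h3
      exact hD' ((mul_eq_zero.1 h6).resolve_left two_ne_zero)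
  · right
    show y ≠ -y - algebraMap F L 0 * x - algebraMap F L 0
    rw [map_zero]
    intro h5
    have h6 : (2 : L) * y = 0 := by linear_combination h5
    exact hy ((mul_eq_zero.1 h6).resolve_left two_ne_zero)

/-- the curve `a w² = a² u⁴ + D s⁴` has a point over `K` -/
def AK (D a : L) : Prop :=
  ∃ u w s : L, (u ≠ 0 ∨ w ≠ 0 ∨ s ≠ 0) ∧ a * w ^ 2 = a ^ 2 * u ^ 4 + D * s ^ 4

theorem ak_iff [CharZero F] {D : F} (hD : D ≠ 0) {a : L} (ha : a ≠ 0) :
    AK (algebraMap F L D) a ↔ ∃ P : Pt (EQ D) L, CQ D L P a := by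
  have hD' : algebraMap F L D ≠ 0 := (map_ne_zero _).2 hD
  constructor
  · rintro ⟨u, w, s, hne, h⟩
    by_cases hs : s = 0
    · subst hs
      have hu : u ≠ 0 := by
        rintro rfl
        have hw : w = 0 := by
          have h1 : a * w ^ 2 = 0 := by rw [h]; ring
          exact pow_eq_zero_iff two_ne_zero |>.1 ((mul_eq_zero.1 h1).resolve_left ha)
        rcases hne with h1 | h1 | h1
        · exact h1 rfl
        · exact h1 hw
        · exact h1 rfl
      refine ⟨0, ha, Or.inl ⟨rfl, w / u ^ 2, ?_⟩⟩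
      have h1 : w ^ 2 = a * u ^ 4 := by
        apply mul_left_cancel₀ ha
        rw [h]
        ring
      rw [div_pow, h1]
      field_simp
    · by_cases hu : u = 0
      · subst hu
        refine ⟨Affine.Point.some 0 0 (eq_nons hD (by ring)), ha,
          Or.inr (Or.inl ⟨⟨_, rfl⟩, a * w / s ^ 2, ?_⟩)⟩
        have h1 : algebraMap F L D * s ^ 4 = a * w ^ 2 := by rw [h]; ring
        rw [div_pow, eq_div_iff (pow_ne_zero _ (pow_ne_zero _ hs))]
        linear_combination a * h1
      · have he : (a * u * w / s ^ 3) ^ 2 = (a * u ^ 2 / s ^ 2) ^ 3 +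
            algebraMap F L D * (a * u ^ 2 / s ^ 2) := by
          field_simp
          linear_combination h
        refine ⟨Affine.Point.some (a * u ^ 2 / s ^ 2) (a * u * w / s ^ 3) (eq_nons hD he), ha,
          Or.inr (Or.inr ⟨_, _, _, s / u, rfl, ?_, div_ne_zero hs hu, ?_⟩)⟩
        · exact div_ne_zero (mul_ne_zero ha (pow_ne_zero _ hu)) (pow_ne_zero _ hs)
        · field_simp
  · rintro ⟨P, -, h⟩
    rcases h with ⟨-, s, hs⟩ | ⟨-, s, hs⟩ | ⟨x, y, h, s, -, hx, hs, he⟩
    · refine ⟨1, s, 0, Or.inl one_ne_zero, ?_⟩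
      rw [hs]
      ring
    · refine ⟨0, s / a, 1, Or.inr (Or.inr one_ne_zero), ?_⟩
      field_simp
      linear_combination -hs
    · have hxy := (eq_eqn D x y).1 h.1
      refine ⟨1 / s, y / (x * s), 1, Or.inr (Or.inr one_ne_zero), ?_⟩
      subst he
      field_simp
      rw [hxy]
      ring

end L

theorem coe_alg {F : Type} [Field F] [NumberField F] (v : HeightOneSpectrum (𝓞 F)) (a : F) :
    (a : v.adicCompletion F) = algebraMap F (v.adicCompletion F) a := by
  rw [HeightOneSpectrum.algebraMap_adicCompletion]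
  rfl

theorem aq_iff {F : Type} [Field F] [NumberField F] {v : HeightOneSpectrum (𝓞 F)} {D a : F} :
    AQ v D a ↔ a ≠ 0 ∧ AK (algebraMap F (v.adicCompletion F) D) (algebraMap F (v.adicCompletion F) a) := by
  unfold AQ AK
  rw [coe_alg, coe_alg]

theorem qap : Pool.Agent.Q283.EN.S_QAP := by
  intro F _ _ v D a hD ha
  rw [aq_iff, coe_alg, ← ak_iff hD ((map_ne_zero _).2 ha)]
  exact ⟨fun h => h.2, fun h => ⟨ha, h⟩⟩

end Pool.Agent.Q53.EN
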