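import Pool.Agent.Q53.EN.QAP
import Pool.Agent.Q262.LK.NRM

/-!
# Project EN (helper283), job QEISO: the classes are isotropic for the Hilbert symbol
-/

set_option autoImplicit false

namespace Pool.Agent.Q53.EN

open Polynomial
open Pool.Agent.Q262.LK (el Nf Mc norm_el)

section A

variable {K : Type} [Field K]

theorem Nf2 (c α β : K) : Nf 2 c ![α, β] = α ^ 2 - c * β ^ 2 := by
  have h0 : Mc 2 c = !![0, c; 1, 0] := by
    ext i j
    fin_cases i <;> fin_cases j <;> simp [Mc]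
  rw [Nf, Fin.sum_univ_two, h0, Matrix.det_fin_two]
  simp
  ring

theorem norm2 (c α β : K) : Algebra.norm K (el 2 c ![α, β]) = α ^ 2 - c * β ^ 2 := by
  rw [norm_el 2 (by norm_num), Nf2]

theorem norm_of (c a α β : K) (h : α ^ 2 - c * β ^ 2 = a) :
    ∃ s : AdjoinRoot (X ^ 2 - C c), Algebra.norm K s = a := ⟨_, (norm2 c α β).trans h⟩

/-- `D` is a norm -/
theorem lemD (I c D u w : K) (hI : I ^ 2 = -1) (h : c * w ^ 2 = c ^ 2 * u ^ 4 + D) :
    ∃ s : AdjoinRoot (X ^ 2 - C c), Algebra.norm K s = D := by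
  refine norm_of c D (I * (c * u ^ 2)) (I * w) ?_
  linear_combination h + ((c * u ^ 2) ^ 2 - c * w ^ 2) * hI

/-- multiples of `c` by squares are norms -/
theorem lemC (I c a k : K) (hI : I ^ 2 = -1) (h : a = c * k ^ 2) :
    ∃ s : AdjoinRoot (X ^ 2 - C c), Algebra.norm K s = a := by
  refine norm_of c a 0 (I * k) ?_
  linear_combination -h - c * k ^ 2 * hI

/-- the line through two points -/
theorem lemL (I a c D u w u' w' : K) (hI : I ^ 2 = -1) (ha : a ≠ 0) (hc : c ≠ 0) (hu : u ≠ 0) (hu' : u' ≠ 0)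
    (h1 : a * w ^ 2 = a ^ 2 * u ^ 4 + D) (h2 : c * w' ^ 2 = c ^ 2 * u' ^ 4 + D)
    (hsq : ∀ b : K, b ^ 2 ≠ c) :
    ∃ s : AdjoinRoot (X ^ 2 - C c), Algebra.norm K s = a := by
  by_cases hx : a * u ^ 2 = c * u' ^ 2
  · refine lemC I c a (u' / u) hI ?_
    field_simp
    linear_combination hx
  have hx' : a * u ^ 2 - c * u' ^ 2 ≠ 0 := sub_ne_zero.2 hx
  obtain ⟨x1, hx1⟩ : ∃ x1, x1 = a * u ^ 2 := ⟨_, rfl⟩
  obtain ⟨x2, hx2⟩ : ∃ x2, x2 = c * u' ^ 2 := ⟨_, rfl⟩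
  obtain ⟨y1, hy1⟩ : ∃ y1, y1 = a * u * w := ⟨_, rfl⟩
  obtain ⟨y2, hy2⟩ : ∃ y2, y2 = c * u' * w' := ⟨_, rfl⟩
  have e1 : y1 ^ 2 = x1 ^ 3 + D * x1 := by
    rw [hy1, hx1]
    linear_combination (a * u ^ 2) * h1
  have e2 : y2 ^ 2 = x2 ^ 3 + D * x2 := by
    rw [hy2, hx2]
    linear_combination (c * u' ^ 2) * h2
  rw [← hx1, ← hx2] at hx'
  have h10 : x1 ≠ 0 := by rw [hx1]; exact mul_ne_zero ha (pow_ne_zero _ hu)
  have h20 : x2 ≠ 0 := by rw [hx2]; exact mul_ne_zero hc (pow_ne_zero _ hu')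
  obtain ⟨l, hl⟩ : ∃ l, l = (y1 - y2) / (x1 - x2) := ⟨_, rfl⟩
  obtain ⟨m, hm⟩ : ∃ m, m = y1 - l * x1 := ⟨_, rfl⟩
  have hl' : l * (x1 - x2) = y1 - y2 := by rw [hl, div_mul_cancel₀ _ hx']
  have f1 : y1 = l * x1 + m := by rw [hm]; ring
  have f2 : y2 = l * x2 + m := by rw [hm]; linear_combination hl'
  have g : m ^ 2 = x1 * x2 * (l ^ 2 - x1 - x2) := by
    apply mul_left_cancel₀ hx'
    rw [f1] at e1
    rw [f2] at e2
    linear_combination -x2 * e1 + x1 * e2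
  obtain ⟨A, hA⟩ : ∃ A, A = l ^ 2 - x2 := ⟨_, rfl⟩
  have hA0 : A ≠ 0 := by
    intro h0
    apply hsq (l / u')
    rw [div_pow, div_eq_iff (pow_ne_zero _ hu'), ← hx2]
    linear_combination h0 - hA
  obtain ⟨n, hn⟩ : ∃ n, n = m / (x1 * x2) := ⟨_, rfl⟩
  have hn' : x1 * (1 + n ^ 2 * x2) = A := by
    have : m = n * (x1 * x2) := by rw [hn]; field_simp
    rw [this] at g
    have h3 : x1 * x2 * (x1 * (1 + n ^ 2 * x2)) = x1 * x2 * A := by
      rw [hA]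
      linear_combination g
    exact mul_left_cancel₀ (mul_ne_zero h10 h20) h3
  refine norm_of c a ((l - I * n * x2) * x1 / (A * u)) ((u' - I * n * l * u') * x1 / (A * u)) ?_
  have e3 : ((l - I * n * x2) * x1 / (A * u)) ^ 2 - c * ((u' - I * n * l * u') * x1 / (A * u)) ^ 2 =
      ((l ^ 2 - x2) * (1 + n ^ 2 * x2)) * x1 ^ 2 / (A * u) ^ 2 := by
    rw [div_pow, div_pow, ← mul_div_assoc, ← sub_div]
    congr 1
    rw [hx2]
    linear_combination (x1 ^ 2 * (n ^ 2 * (c * u' ^ 2) ^ 2 - n ^ 2 * l ^ 2 * (c * u' ^ 2))) * hI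
  rw [e3, ← hA, div_eq_iff (pow_ne_zero _ (mul_ne_zero hA0 hu))]
  have e4 : A * (1 + n ^ 2 * x2) * x1 ^ 2 = A * x1 * (x1 * (1 + n ^ 2 * x2)) := by ring
  rw [e4, hn', hx1]
  ring

/-- normal form of a solution -/
theorem normal (a D u w s : K) (ha : a ≠ 0) (hne : u ≠ 0 ∨ w ≠ 0 ∨ s ≠ 0)
    (h : a * w ^ 2 = a ^ 2 * u ^ 4 + D * s ^ 4) (hsq : ¬ ∃ b : K, a = b ^ 2) :
    ∃ u' w' : K, a * w' ^ 2 = a ^ 2 * u' ^ 4 + D := by
  by_cases hs : s = 0
  · exfalso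
    apply hsq
    subst hs
    have h' : w ^ 2 = a * u ^ 4 := by
      apply mul_left_cancel₀ ha
      rw [h]
      ring
    have hu : u ≠ 0 := by
      rintro rfl
      have hw : w = 0 := by
        have : w ^ 2 = 0 := by rw [h']; ring
        exact pow_eq_zero_iff two_ne_zero |>.1 this
      rcases hne with h1 | h1 | h1
      · exact h1 rfl
      · exact h1 hw
      · exact h1 rfl
    refine ⟨w / u ^ 2, ?_⟩
    rw [div_pow, h']
    field_simp
  · refine ⟨u / s, w / s ^ 2, ?_⟩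
    field_simp
    linear_combination h

end A

open NumberField IsDedekindDomain Filter Topology Finset
open Pool.Agent.Q7.LK Pool.Agent.Q283.EN

theorem qeiso (_hBAS : Pool.Agent.Q7.LK.S_BAS) (CPL : Pool.Agent.Q7.LK.S_CPL) (_hQAP : Pool.Agent.Q283.EN.S_QAP)
    (NRM : Pool.Agent.Q283.EN.S_NRM2) : Pool.Agent.Q283.EN.S_QEISO := by
  intro F _ _ i ζ hi hζ t ht v D a c hD hAa hAc
  have : Fact (Nat.Prime 2) := ⟨Nat.prime_two⟩
  obtain ⟨ha, u, w, s, hne, h⟩ := hAa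
  obtain ⟨hc, u', w', s', hne', h'⟩ := hAc
  by_cases la : Lpw 2 v a
  · exact ht.pow v a c la hc
  by_cases lc : Lpw 2 v c
  · rw [ht.anti v a c ha hc, ht.pow v c a lc ha, neg_zero]
  have hI : (i : v.adicCompletion F) ^ 2 = -1 := by
    rw [coe_alg, ← map_pow, hi, map_neg, map_one]
  have coe_ne : ∀ x : F, x ≠ 0 → (x : v.adicCompletion F) ≠ 0 := by
    intro x hx
    rw [coe_alg]
    exact (_root_.map_ne_zero _).2 hx
  have coe_mul : ∀ x y : F, ((x * y : F) : v.adicCompletion F) = (x : v.adicCompletion F) * (y : v.adicCompletion F) := by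
    intro x y
    rw [coe_alg, coe_alg, coe_alg, map_mul]
  have ca : ¬ ∃ b : v.adicCompletion F, (a : v.adicCompletion F) = b ^ 2 := fun hb => la ((CPL 2 F v a).2 ⟨ha, hb⟩)
  have cc : ¬ ∃ b : v.adicCompletion F, (c : v.adicCompletion F) = b ^ 2 := fun hb => lc ((CPL 2 F v c).2 ⟨hc, hb⟩)
  obtain ⟨u1, w1, h1⟩ := normal _ _ u w s (coe_ne a ha) hne h ca
  obtain ⟨u2, w2, h2⟩ := normal _ _ u' w' s' (coe_ne c hc) hne' h' cc
  have tDc : t v D c = 0 := NRM F i ζ hi hζ t ht v c hc lc D hD (lemD _ _ _ u2 w2 hI h2)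
  have tDa : t v D a = 0 := NRM F i ζ hi hζ t ht v a ha la D hD (lemD _ _ _ u1 w1 hI h1)
  by_cases hu1 : u1 = 0
  · have h3 : Lpw 2 v (a * D) := (CPL 2 F v (a * D)).2 ⟨mul_ne_zero ha hD, (a : v.adicCompletion F) * w1, by
      rw [coe_mul]
      rw [hu1] at h1
      linear_combination -(a : v.adicCompletion F) * h1⟩
    have h4 := ht.mul v a D c ha hD hc
    rw [ht.pow v (a * D) c h3 hc, tDc, add_zero] at h4
    exact h4.symm
  by_cases hu2 : u2 = 0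
  · have h3 : Lpw 2 v (c * D) := (CPL 2 F v (c * D)).2 ⟨mul_ne_zero hc hD, (c : v.adicCompletion F) * w2, by
      rw [coe_mul]
      rw [hu2] at h2
      linear_combination -(c : v.adicCompletion F) * h2⟩
    have h4 := ht.mul v c D a hc hD ha
    rw [ht.pow v (c * D) a h3 ha, tDa, add_zero] at h4
    rw [ht.anti v a c ha hc, ← h4, neg_zero]
  exact NRM F i ζ hi hζ t ht v c hc lc a ha
    (lemL _ _ _ _ u1 w1 u2 w2 hI (coe_ne a ha) (coe_ne c hc) hu1 hu2 h1 h2 (fun b hb => cc ⟨b, hb.symm⟩))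

end Pool.Agent.Q53.EN
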