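import Pool.Agent.Q53.EN.QAP
import Pool.Agent.Q285.LK.CPL

/-!
# Project EN (helper283), job QLOC: formal properties of the classes
-/

set_option autoImplicit false

namespace Pool.Agent.Q53.EN

open NumberField IsDedekindDomain WeierstrassCurve
open Pool.Agent.Q283.EN Pool.Agent.Q7.LK Pool.Agent.Y682
open Pool.Agent.TH841.SH.D (Pt)

section K

variable {K : Type} [Field K]

theorem AK.mul {D a : K} (h : AK D a) {β : K} (hβ : β ≠ 0) : AK D (a * β ^ 2) := by
  obtain ⟨u, w, s, h0, h1⟩ := h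
  refine ⟨u / β, w / β, s, ?_, ?_⟩
  · rcases h0 with h | h | h
    · exact Or.inl (div_ne_zero h hβ)
    · exact Or.inr (Or.inl (div_ne_zero h hβ))
    · exact Or.inr (Or.inr h)
  · field_simp
    linear_combination h1

theorem AK.inv {D a : K} (h : AK D a) {ν : K} (hν : ν ≠ 0) : AK (D * ν ^ 4) a := by
  obtain ⟨u, w, s, h0, h1⟩ := h
  refine ⟨u, w, s / ν, ?_, ?_⟩
  · rcases h0 with h | h | h
    · exact Or.inl h
    · exact Or.inr (Or.inl h)
    · exact Or.inr (Or.inr (div_ne_zero h hν))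
  · rw [h1]
    field_simp

theorem AK.one (D : K) : AK D 1 := ⟨1, 1, 0, Or.inl one_ne_zero, by ring⟩

theorem AK.tor {D a : K} (h : AK D a) (ha : a ≠ 0) : AK D (a * D) := by
  obtain ⟨u, w, s, h0, h1⟩ := h
  refine ⟨s, a * w, a * u, ?_, ?_⟩
  · rcases h0 with h | h | h
    · exact Or.inr (Or.inr (mul_ne_zero ha h))
    · exact Or.inr (Or.inl (mul_ne_zero ha h))
    · exact Or.inl h
  · linear_combination (a ^ 2 * D) * h1

end K

/-- local fourth powers -/
theorem lpw4 {F : Type} [Field F] [NumberField F] (v : HeightOneSpectrum (𝓞 F)) {n : F} (h : Lpw 4 v n) :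
    n ≠ 0 ∧ ∃ ν : v.adicCompletion F, ν ≠ 0 ∧ algebraMap F (v.adicCompletion F) n = ν ^ 4 := by
  have hp0 : ((4 : ℕ) : v.adicCompletion F) ≠ 0 := by
    have e : ((4 : ℕ) : v.adicCompletion F) = algebraMap F _ ((4 : ℕ) : F) := by rw [map_natCast]
    rw [e]
    exact (map_ne_zero _).2 (by norm_num)
  have h40 : vv v (((4 : ℕ) : v.adicCompletion F) ^ 2) ≠ 0 :=
    (Valuation.ne_zero_iff _).2 (pow_ne_zero 2 hp0)
  set k : ℤ := WithZero.log (vv v (((4 : ℕ) : v.adicCompletion F) ^ 2)) with hk0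
  have hk : vv v (((4 : ℕ) : v.adicCompletion F) ^ 2) = WithZero.exp k := (WithZero.exp_log h40).symm
  obtain ⟨x, hx⟩ := h k.natAbs
  have hle : WithZero.exp (-((k.natAbs : ℕ) : ℤ)) ≤ vv v (((4 : ℕ) : v.adicCompletion F) ^ 2) := by
    rw [hk]
    exact WithZero.exp_le_exp.2 (by omega)
  have h41 : vv v (((4 : ℕ) : v.adicCompletion F) ^ 2) ≤ 1 := by
    rw [map_pow]
    exact pow_le_one' (Pool.Agent.Q285.LK.vv_nat v 4) 2
  have h1 : v.valuation F (n * x ^ 4 - 1) < 1 := hx.trans_le (hle.trans h41)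
  have hbx : n * x ^ 4 ≠ 0 := by
    intro h0
    rw [h0, zero_sub, Valuation.map_neg, map_one] at h1
    exact lt_irrefl _ h1
  have hn0 : n ≠ 0 := left_ne_zero_of_mul hbx
  have hx0 : x ≠ 0 := by
    rintro rfl
    exact hbx (by rw [zero_pow (by norm_num), mul_zero])
  obtain ⟨y, hy⟩ := Pool.Agent.Q285.LK.exists_proot v (p := 4) (by norm_num)
    (algebraMap F (v.adicCompletion F) (n * x ^ 4 - 1)) (by
    rw [vv_coe]
    exact hx.trans_le hle)
  have hx1 : algebraMap F (v.adicCompletion F) x ≠ 0 := (map_ne_zero _).2 hx0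
  have he : algebraMap F (v.adicCompletion F) n = (y / algebraMap F (v.adicCompletion F) x) ^ 4 := by
    rw [div_pow, hy, map_sub, map_mul, map_pow, map_one, add_sub_cancel,
      mul_div_cancel_right₀ _ (pow_ne_zero _ hx1)]
  refine ⟨hn0, _, ?_, he⟩
  intro h0
  rw [h0, zero_pow (by norm_num)] at he
  exact (map_ne_zero _).2 hn0 he

theorem qloc (_hBAS : Pool.Agent.Q7.LK.S_BAS) (hCPL : Pool.Agent.Q7.LK.S_CPL)
    (hQCL : Pool.Agent.Q283.EN.S_QCL) (hQAP : Pool.Agent.Q283.EN.S_QAP) : Pool.Agent.Q283.EN.S_QLOC := by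
  intro F _ _ i hi v D hD
  have : Fact (Nat.Prime 2) := ⟨Nat.prime_two⟩
  refine ⟨?_, ?_, ?_, ?_, ?_⟩
  · intro a b ha hb
    obtain ⟨hb0, β, hβ⟩ := (hCPL 2 F v b).1 hb
    rw [coe_alg] at hβ
    rw [aq_iff] at ha ⊢
    refine ⟨mul_ne_zero ha.1 hb0, ?_⟩
    rw [map_mul, hβ]
    refine ha.2.mul ?_
    rintro rfl
    rw [zero_pow two_ne_zero] at hβ
    exact (map_ne_zero _).2 hb0 hβ
  · intro n a hn ha
    obtain ⟨hn0, ν, hν0, hν⟩ := lpw4 v hn
    rw [aq_iff] at ha ⊢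
    refine ⟨ha.1, ?_⟩
    rw [map_mul, hν]
    exact ha.2.inv hν0
  · intro a ha
    have h := aq_iff.1 ha
    rw [aq_iff]
    refine ⟨mul_ne_zero h.1 hD, ?_⟩
    rw [map_mul]
    exact h.2.tor ((map_ne_zero _).2 h.1)
  · intro a b ha hb
    have ha0 := (aq_iff.1 ha).1
    have hb0 := (aq_iff.1 hb).1
    obtain ⟨P, hP⟩ := (hQAP F v D a hD ha0).1 ha
    obtain ⟨Q, hQ⟩ := (hQAP F v D b hD hb0).1 hb
    refine (hQAP F v D (a * b) hD (mul_ne_zero ha0 hb0)).2 ⟨P + Q, ?_⟩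
    have h1 := ((hQCL F D hD).1 (v.adicCompletion F) P).2.2.2 Q _ _ hP hQ
    have e : ((a * b : F) : v.adicCompletion F) = (a : v.adicCompletion F) * (b : v.adicCompletion F) := by
      rw [coe_alg, coe_alg, coe_alg, map_mul]
    rw [e]
    exact h1
  · rw [aq_iff]
    refine ⟨one_ne_zero, ?_⟩
    rw [map_one]
    exact AK.one _

end Pool.Agent.Q53.EN
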